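import Pool.Agent.Helper96.CT.Stmts2

/-!
# Row GR: greedy extension of an embedding of a subtree
-/

set_option autoImplicit false

namespace Pool.Agent.Helper77.CT

open SimpleGraph Pool.Agent.Helper96.CT

/-- a vertex outside a connected set has at most one neighbour in it (no cycles) -/
theorem GR_uniq {W : Type} (T : SimpleGraph W) (hT : T.IsAcyclic) (B : Set W)
    (hB : (T.induce B).Connected) (a b c : W) (ha : a ∉ B) (hb : b ∈ B) (hc : c ∈ B)
    (hba : T.Adj b a) (hca : T.Adj c a) : c = b := by
  classical
  by_contra hne
  obtain ⟨w⟩ := hB.preconnected ⟨b, hb⟩ ⟨c, hc⟩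
  have hw := w.toPath.2
  have hp : (w.toPath.1.map (SimpleGraph.Embedding.induce B).toHom).IsPath :=
    SimpleGraph.Walk.map_isPath_of_injective
      (SimpleGraph.Embedding.induce (G := T) B).injective hw
  have hq : (SimpleGraph.Walk.cons hba (SimpleGraph.Walk.cons hca.symm
      SimpleGraph.Walk.nil)).IsPath := by
    rw [SimpleGraph.Walk.cons_isPath_iff, SimpleGraph.Walk.cons_isPath_iff]
    refine ⟨⟨SimpleGraph.Walk.IsPath.nil, ?_⟩, ?_⟩
    · simp only [SimpleGraph.Walk.support_nil, List.mem_singleton]
      rintro rfl
      exact ha hc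
    · simp only [SimpleGraph.Walk.support_cons, SimpleGraph.Walk.support_nil, List.mem_cons,
        List.not_mem_nil, or_false]
      rintro (h | h)
      · exact ha (h ▸ hb)
      · exact hne h.symm
  have he := congrArg Subtype.val (hT.path_unique ⟨_, hp⟩ ⟨_, hq⟩)
  have hs : a ∈ (w.toPath.1.map (SimpleGraph.Embedding.induce B).toHom).support := by
    have he' : (w.toPath.1.map (SimpleGraph.Embedding.induce B).toHom) =
      (SimpleGraph.Walk.cons hba (SimpleGraph.Walk.cons hca.symm SimpleGraph.Walk.nil)) := he
    rw [he']
    simp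
  rw [SimpleGraph.Walk.support_map, List.mem_map] at hs
  obtain ⟨x, _, hx⟩ := hs
  apply ha
  rw [← hx]
  exact x.2

theorem st_GR : ST_GR := by
  intro W V _ _ T F H D hac hMD S A φ hSA hcard hS hA h1 h2 h3
  classical
  have key : ∀ (n : ℕ) (B : Finset W) (φ : W → V), (A \ B).card = n → B ⊆ A →
      (T.induce (B : Set W)).Connected → (∀ w ∈ B, φ w ∈ H) →
      (∀ u ∈ B, ∀ w ∈ B, φ u = φ w → u = w) →
      (∀ u ∈ B, ∀ w ∈ B, T.Adj u w → F.Adj (φ u) (φ w)) →
      ∃ ψ : W → V, (∀ w ∈ B, ψ w = φ w) ∧ (∀ w ∈ A, ψ w ∈ H) ∧
        (∀ u ∈ A, ∀ w ∈ A, ψ u = ψ w → u = w) ∧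
        ∀ u ∈ A, ∀ w ∈ A, T.Adj u w → F.Adj (ψ u) (ψ w) := by
    intro n
    induction n with
    | zero =>
      intro B φ hn hBA hB g1 g2 g3
      have hAB : A ⊆ B := Finset.sdiff_eq_empty_iff_subset.1 (Finset.card_eq_zero.1 hn)
      have e : B = A := Finset.Subset.antisymm hBA hAB
      rw [e] at g1 g2 g3
      exact ⟨φ, fun _ _ => rfl, g1, g2, g3⟩
    | succ n ih =>
      intro B φ hn hBA hB g1 g2 g3
      obtain ⟨y, hy⟩ := Finset.card_pos.1 (show 0 < (A \ B).card by omega)
      rw [Finset.mem_sdiff] at hy
      obtain ⟨⟨x, hx⟩⟩ := hB.nonempty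
      have hxB : x ∈ B := hx
      obtain ⟨w⟩ := hA.preconnected ⟨x, hBA hxB⟩ ⟨y, hy.1⟩
      obtain ⟨e, -, he1, he2⟩ := w.exists_boundary_dart {t | (t : W) ∈ B} hxB hy.2
      obtain ⟨a, ha⟩ : ∃ a : W, a = e.snd.1 := ⟨_, rfl⟩
      obtain ⟨b, hb⟩ : ∃ b : W, b = e.fst.1 := ⟨_, rfl⟩
      have hbB : b ∈ B := by rw [hb]; exact he1
      have haB : a ∉ B := by rw [ha]; exact he2
      have haA : a ∈ A := by rw [ha]; exact e.snd.2
      have hab : T.Adj b a := by rw [ha, hb]; exact e.adj
      have huniq : ∀ c ∈ B, T.Adj c a → c = b := fun c hc hca =>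
        GR_uniq T hac (B : Set W) hB a b c haB hbB hc hab hca
      obtain ⟨I, hIH, hIadj, hIcard⟩ := hMD (φ b) (g1 b hbB)
      obtain ⟨v, hvI, hvB⟩ : ∃ v ∈ I, v ∉ B.image φ := by
        by_contra hcon
        push Not at hcon
        have hsub : I ⊆ (B.erase b).image φ := by
          intro v hv
          obtain ⟨c, hc, hcv⟩ := Finset.mem_image.1 (hcon v hv)
          refine Finset.mem_image.2 ⟨c, Finset.mem_erase.2 ⟨?_, hc⟩, hcv⟩
          intro hcb
          have h4 := hIadj v hv
          rw [← hcv, hcb] at h4
          exact F.irrefl h4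
        have c1 := Finset.card_le_card hsub
        have c2 := Finset.card_image_le (s := B.erase b) (f := φ)
        have c3 := Finset.card_erase_of_mem hbB
        have c4 : B.card < A.card := Finset.card_lt_card
          ((Finset.ssubset_iff_of_subset hBA).2 ⟨a, haA, haB⟩)
        have c5 : 0 < B.card := Finset.card_pos.2 ⟨b, hbB⟩
        omega
      have hvH : v ∈ H := hIH hvI
      have hv1 : F.Adj (φ b) v := hIadj v hvI
      have ua : Function.update φ a v a = v := Function.update_self a v φ
      have ub : ∀ c ∈ B, Function.update φ a v c = φ c := by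
        intro c hc
        apply Function.update_of_ne
        rintro rfl
        exact haB hc
      obtain ⟨ψ, k1, k2, k3, k4⟩ := ih (insert a B) (Function.update φ a v) (by
          have e1 : A \ insert a B = (A \ B).erase a := by
            ext t
            simp only [Finset.mem_sdiff, Finset.mem_insert, Finset.mem_erase]
            tauto
          rw [e1, Finset.card_erase_of_mem (Finset.mem_sdiff.2 ⟨haA, haB⟩), hn]
          rfl)
        (Finset.insert_subset haA hBA)
        (by
          have h5 := SimpleGraph.induce_union_connected (G := T) (s := ((B : Set W)))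
            (t := ({b, a} : Set W)) hB.preconnected
            (SimpleGraph.induce_pair_connected_of_adj hab).preconnected ⟨b, hbB, by simp⟩
          have e2 : ((insert a B : Finset W) : Set W) = (B : Set W) ∪ {b, a} := by
            ext t
            simp only [Finset.coe_insert, Set.mem_insert_iff, Finset.mem_coe, Set.mem_union,
              Set.mem_singleton_iff]
            constructor
            · rintro (h | h)
              · exact Or.inr (Or.inr h)
              · exact Or.inl h
            · rintro (h | h | h)
              · exact Or.inr h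
              · rw [h]
                exact Or.inr hbB
              · exact Or.inl h
          rw [e2]
          exact h5)
        (by
          intro c hc
          rcases Finset.mem_insert.1 hc with rfl | hc
          · rw [ua]
            exact hvH
          · rw [ub c hc]
            exact g1 c hc)
        (by
          intro c hc c' hc' hcc
          rcases Finset.mem_insert.1 hc with h | hc
          · rcases Finset.mem_insert.1 hc' with h' | hc'
            · rw [h, h']
            · rw [h, ua, ub c' hc'] at hcc
              exact absurd (Finset.mem_image.2 ⟨c', hc', hcc.symm⟩) hvB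
          · rcases Finset.mem_insert.1 hc' with h' | hc'
            · rw [h', ua, ub c hc] at hcc
              exact absurd (Finset.mem_image.2 ⟨c, hc, hcc⟩) hvB
            · rw [ub c hc, ub c' hc'] at hcc
              exact g2 c hc c' hc' hcc)
        (by
          intro c hc c' hc' hcc
          rcases Finset.mem_insert.1 hc with h | hc
          · rcases Finset.mem_insert.1 hc' with h' | hc'
            · rw [h, h'] at hcc
              exact absurd hcc T.irrefl
            · rw [h] at hcc ⊢
              have h6 := huniq c' hc' hcc.symm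
              rw [ua, ub c' hc', h6]
              exact hv1.symm
          · rcases Finset.mem_insert.1 hc' with h' | hc'
            · rw [h'] at hcc ⊢
              have h6 := huniq c hc hcc
              rw [ua, ub c hc, h6]
              exact hv1
            · rw [ub c hc, ub c' hc']
              exact g3 c hc c' hc' hcc)
      refine ⟨ψ, ?_, k2, k3, k4⟩
      intro c hc
      rw [k1 c (Finset.mem_insert_of_mem hc), ub c hc]
  exact key _ S φ rfl hSA hS h1 h2 h3

end Pool.Agent.Helper77.CT
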