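import Pool.Agent.Helper96.CT.Stmts3

/-!
# Row NC: trees with small branches are not in a chain of cliques
-/

set_option autoImplicit false

namespace Pool.Agent.Helper77.CT

open SimpleGraph Pool.Agent.Helper96.CT

theorem NC_walk {W : Type} (T : SimpleGraph W) (U : Set W) {w y : W} (p : T.Walk w y) :
    ∀ hw : w ∈ U, y ∉ U → ∃ u v : W, ∃ hu : u ∈ U, v ∉ U ∧ T.Adj u v ∧
      (T.induce U).Reachable ⟨w, hw⟩ ⟨u, hu⟩ := by
  induction p with
  | nil => intro hw hy; exact absurd hw hy
  | @cons w z y hwz p ih =>
    intro hw hy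
    by_cases hz : z ∈ U
    · obtain ⟨u, v, hu, hv, huv, hr⟩ := ih hz hy
      refine ⟨u, v, hu, hv, huv, ?_⟩
      have h : (T.induce U).Adj ⟨w, hw⟩ ⟨z, hz⟩ := hwz
      exact h.reachable.trans hr
    · exact ⟨w, z, hw, hz, hwz, SimpleGraph.Reachable.refl _⟩

theorem NC_conn {W : Type} (T : SimpleGraph W) (U : Set W) (hT : T.Connected) (x : W)
    (hx : x ∉ U) (huniq : ∀ u v u' v', u ∈ U → v ∉ U → T.Adj u v → u' ∈ U → v' ∉ U →
      T.Adj u' v' → u = u') (hne : U.Nonempty) : (T.induce U).Connected := by
  have hn : Nonempty U := hne.to_subtype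
  refine SimpleGraph.Connected.mk ?_
  rintro ⟨w, hw⟩ ⟨w', hw'⟩
  obtain ⟨p⟩ := hT.preconnected w x
  obtain ⟨p'⟩ := hT.preconnected w' x
  obtain ⟨u, v, hu, hv, huv, hr⟩ := NC_walk T U p hw hx
  obtain ⟨u', v', hu', hv', huv', hr'⟩ := NC_walk T U p' hw' hx
  have e := huniq u v u' v' hu hv huv hu' hv' huv'
  subst e
  exact hr.trans hr'.symm

theorem st_NC : ST_NC := by
  intro W V _ T F a c x hT hcard hB hC hcon
  classical
  obtain ⟨f⟩ := hcon
  obtain ⟨hC1, hC2, hC3⟩ := hC
  have hadj : ∀ u v, T.Adj u v → F.Adj (f u) (f v) := fun u v h => f.toHom.map_adj h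
  have hinj : Function.Injective f := f.injective
  have h0 : (Finset.univ.filter (fun w : W => c (f w) = c (f x))).card ≤ a := by
    have h1 := hC1 (c (f x)) ((Finset.univ.filter (fun w : W => c (f w) = c (f x))).image f)
      (by
        intro y hy
        obtain ⟨w, hw, rfl⟩ := Finset.mem_image.1 hy
        exact (Finset.mem_filter.1 hw).2)
    rwa [Finset.card_image_of_injective _ hinj] at h1
  have hU : (Finset.univ.filter (fun w : W => c (f x) < c (f w))).card ≤ a := by
    by_cases hne : (Finset.univ.filter (fun w : W => c (f x) < c (f w))).Nonempty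
    · apply hB
      · simp
      · apply NC_conn T _ hT x (by simp) _ (by exact_mod_cast hne)
        intro u v u' v' hu hv huv hu' hv' huv'
        have k1 : c (f x) < c (f u) := by simpa using hu
        have k2 : c (f v) ≤ c (f x) := by simpa using hv
        have k1' : c (f x) < c (f u') := by simpa using hu'
        have k2' : c (f v') ≤ c (f x) := by simpa using hv'
        have k3 := hC2 _ _ (hadj _ _ huv)
        have k3' := hC2 _ _ (hadj _ _ huv')
        exact hinj (hC3 (f v) (f u) (f v') (f u') (hadj _ _ huv.symm) (hadj _ _ huv'.symm)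
          (by omega) (by omega) (by omega)).2
    · rw [Finset.not_nonempty_iff_eq_empty.1 hne]
      simp
  have hL : (Finset.univ.filter (fun w : W => c (f w) < c (f x))).card ≤ a := by
    by_cases hne : (Finset.univ.filter (fun w : W => c (f w) < c (f x))).Nonempty
    · apply hB
      · simp
      · apply NC_conn T _ hT x (by simp) _ (by exact_mod_cast hne)
        intro u v u' v' hu hv huv hu' hv' huv'
        have k1 : c (f u) < c (f x) := by simpa using hu
        have k2 : c (f x) ≤ c (f v) := by simpa using hv
        have k1' : c (f u') < c (f x) := by simpa using hu'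
        have k2' : c (f x) ≤ c (f v') := by simpa using hv'
        have k3 := hC2 _ _ (hadj _ _ huv)
        have k3' := hC2 _ _ (hadj _ _ huv')
        exact hinj (hC3 (f u) (f v) (f u') (f v') (hadj _ _ huv) (hadj _ _ huv')
          (by omega) (by omega) (by omega)).1
    · rw [Finset.not_nonempty_iff_eq_empty.1 hne]
      simp
  have hcov : (Finset.univ : Finset W) ⊆
      (Finset.univ.filter (fun w : W => c (f w) = c (f x))) ∪
      ((Finset.univ.filter (fun w : W => c (f x) < c (f w))) ∪
      (Finset.univ.filter (fun w : W => c (f w) < c (f x)))) := by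
    intro w _
    simp only [Finset.mem_union, Finset.mem_filter, Finset.mem_univ, true_and]
    omega
  have h1 := Finset.card_le_card hcov
  have h2 := Finset.card_union_le (Finset.univ.filter (fun w : W => c (f w) = c (f x)))
      ((Finset.univ.filter (fun w : W => c (f x) < c (f w))) ∪
      (Finset.univ.filter (fun w : W => c (f w) < c (f x))))
  have h3 := Finset.card_union_le (Finset.univ.filter (fun w : W => c (f x) < c (f w)))
      (Finset.univ.filter (fun w : W => c (f w) < c (f x)))
  rw [Finset.card_univ] at h1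
  omega

end Pool.Agent.Helper77.CT
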