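import Pool.Agent.Helper96.CT.Stmts

/-!
# Row SC: odd cycles
-/

set_option autoImplicit false

namespace Pool.Agent.Helper77.CT

open SimpleGraph Pool.Agent.Helper96.CT

theorem SC_ne (n a : ℕ) (ha : 0 < a) (h : a < n) : ((a : ℕ) : ZMod n) ≠ 0 := by
  intro e
  rw [ZMod.natCast_eq_zero_iff] at e
  exact absurd (Nat.le_of_dvd ha e) (by omega)

theorem st_SC : ST_SC := by
  intro t ht
  have hn0 : 2 * t + 1 ≠ 0 := by omega
  haveI : NeZero (2 * t + 1) := ⟨hn0⟩
  have n1 : (1 : ZMod (2 * t + 1)) ≠ 0 := by
    have := SC_ne (2 * t + 1) 1 (by omega) (by omega)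
    simpa using this
  have n2 : (2 : ZMod (2 * t + 1)) ≠ 0 := by
    have := SC_ne (2 * t + 1) 2 (by omega) (by omega)
    simpa using this
  have n3 : (3 : ZMod (2 * t + 1)) ≠ 0 := by
    have := SC_ne (2 * t + 1) 3 (by omega) (by omega)
    simpa using this
  let F : SimpleGraph (ZMod (2 * t + 1)) :=
    { Adj := fun x y => y = x + 1 ∨ x = y + 1
      symm := ⟨fun x y h => h.symm⟩
      loopless := ⟨fun x h => by
        rcases h with h | h
        · exact n1 (by simpa using h.symm)
        · exact n1 (by simpa using h.symm)⟩ }
  have adj : ∀ x y, F.Adj x y ↔ (y = x + 1 ∨ x = y + 1) := fun x y => Iff.rfl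
  refine ⟨ZMod (2 * t + 1), inferInstance, F, ZMod.card _, ?_, ?_, ?_, ?_⟩
  · -- connected
    have key : ∀ (k : ℕ) (x : ZMod (2 * t + 1)), F.Reachable x (x + (k : ZMod (2 * t + 1))) := by
      intro k
      induction k with
      | zero => intro x; simp
      | succ k ih =>
        intro x
        refine (ih x).trans (SimpleGraph.Adj.reachable ?_)
        rw [adj]
        left
        push_cast
        ring
    haveI : Nonempty (ZMod (2 * t + 1)) := ⟨0⟩
    refine SimpleGraph.Connected.mk (fun x y => ?_)
    have h := key (y - x).val x
    rw [ZMod.natCast_zmod_val, add_sub_cancel] at h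
    exact h
  · -- complement connected
    have key : ∀ (k : ℕ) (x : ZMod (2 * t + 1)),
        Fᶜ.Reachable x (x + 2 * (k : ZMod (2 * t + 1))) := by
      intro k
      induction k with
      | zero => intro x; simp
      | succ k ih =>
        intro x
        refine (ih x).trans (SimpleGraph.Adj.reachable ?_)
        rw [SimpleGraph.compl_adj, adj]
        refine ⟨?_, ?_⟩
        · intro h
          apply n2
          have e : (x + 2 * ((k + 1 : ℕ) : ZMod (2 * t + 1))) -
            (x + 2 * (k : ZMod (2 * t + 1))) = 2 := by
            push_cast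
            ring
          rw [← e, ← h, sub_self]
        · rintro (h | h)
          · apply n1
            have e : (x + 2 * ((k + 1 : ℕ) : ZMod (2 * t + 1))) -
              (x + 2 * (k : ZMod (2 * t + 1)) + 1) = 1 := by
              push_cast
              ring
            rw [← e, ← h, sub_self]
          · apply n3
            have e : (x + 2 * ((k + 1 : ℕ) : ZMod (2 * t + 1)) + 1) -
              (x + 2 * (k : ZMod (2 * t + 1))) = 3 := by
              push_cast
              ring
            rw [← e, ← h, sub_self]
    haveI : Nonempty (ZMod (2 * t + 1)) := ⟨0⟩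
    refine SimpleGraph.Connected.mk (fun x y => ?_)
    have h := key (((t : ZMod (2 * t + 1)) + 1) * (y - x)).val x
    rw [ZMod.natCast_zmod_val] at h
    have e0 : (2 * (t : ZMod (2 * t + 1)) + 1) = 0 := by
      have := ZMod.natCast_self (2 * t + 1)
      push_cast at this
      exact this
    have e : x + 2 * (((t : ZMod (2 * t + 1)) + 1) * (y - x)) = y := by
      have : x + 2 * (((t : ZMod (2 * t + 1)) + 1) * (y - x)) =
        y + (2 * (t : ZMod (2 * t + 1)) + 1) * (y - x) := by ring
      rw [this, e0, zero_mul, add_zero]
    rw [e] at h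
    exact h
  · -- independent sets
    intro I hI
    have hd : Disjoint I (I.image (fun x => x + 1)) := by
      rw [Finset.disjoint_left]
      intro y hy hy2
      rw [Finset.mem_image] at hy2
      obtain ⟨x, hx, e⟩ := hy2
      have hne : x ≠ y := by
        intro h
        rw [← e] at h
        exact n1 (by simpa using h.symm)
      exact hI x hx y hy hne (Or.inl e.symm)
    have hc : (I.image (fun x => x + 1)).card = I.card :=
      Finset.card_image_of_injective _ (add_left_injective 1)
    have h1 := Finset.card_union_of_disjoint hd
    have h2 := Finset.card_le_univ (I ∪ I.image (fun x => x + 1))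
    rw [ZMod.card] at h2
    omega
  · -- degrees
    intro v I hI
    have hs : I ⊆ {v + 1, v - 1} := by
      intro x hx
      rcases hI x hx with h | h
      · simp [h]
      · have : x = v - 1 := by rw [h]; ring
        simp [this]
    exact (Finset.card_le_card hs).trans Finset.card_le_two

end Pool.Agent.Helper77.CT
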